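import Mathlib
import Pool.Agent.Q274.BJ.Def
import Pool.Agent.Q274.BJ.Prop
import Pool.Agent.Y676.Tsm
import Pool.Agent.Y660.TS.Rnk
import Pool.Agent.Y46.KEY.Key

/-!
# Abel–Jacobi maps of the motives `h¹(J)(1)`, `J` a prime twist of a hyperelliptic Jacobian of any genus

Let `g ≥ 1`. All the curves `y² = (x - a_0) (x - a_1) ... (x - a_{2 g})` with distinct integers `a_i`,
ordered by `max |a_i|`. Every hyperelliptic curve over `ℚ` of genus `g` all of whose `2 g + 2`
Weierstrass points are rational is isomorphic over `ℚ` to such a curve. For almost all of these curves,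
for a positive proportion of the primes `q` up to any bound larger than a power of `log max |a_i|`, the
quadratic twist by `q`, a curve with Jacobian `J_q`, satisfies `H¹_f(ℚ, V_2 J_q) = 0` and
`#(J_q(ℚ) / 2 ^ m J_q(ℚ)) = 2 ^ (2 g)` for all `m ≥ 1`.

The motive `M = h¹(J_q)(1)` over `K = ℚ` is polarized of weight `-1`, `M_p = V_p J_q`, `CH(M)⁰ ⊗ ℚ_p` is
`J_q(ℚ) ⊗ ℚ_p` and `AJ_p` is the Kummer map. So for these motives of rank `2 g` and `p = 2` the image of
the Abel–Jacobi map equals `H¹_f(ℚ, M_2)`. It is known to be injective (the group `J_q(ℚ)` is finitely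
generated by the theorem of Mordell and Weil, which is not used here; by this theorem both groups are
zero).

The group of the points of `J` over an algebraically closed field and the absolute Galois group are
defined in `Pool.Agent.Y723.SJ.Def`, the Selmer group `H1f` in `Pool.Agent.Q274.BJ.Def`: the classes
of the continuous cocycles of the absolute Galois group of `ℚ` with values in `V_p J = T_p J ⊗ ℚ_p`
whose restrictions to `ℚ_l`, for all primes `l`, and to `ℝ` are in the images of the local Kummer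
maps; this is the condition of Bloch and Kato.

The number of the twists with trivial invariants comes from the files of the seeds `Pool.Agent.Y723`
(the theorem `MP_dfae13_nt.TinyTwistsOfJacobians`).
-/

set_option autoImplicit false

namespace Pool.Agent.Results.MP_009fd8_ag.HyperellipticJacobians

open Finset Pool.Agent.Y723.SJ

open Q274.BJ (H1f)

open Classical in
/-- the tuples of distinct integers of absolute value at most `X` -/
noncomputable def Fam (g X : ℕ) : Finset (Fin (2 * g + 1) → ℤ) :=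
  (Fintype.piFinset (fun _ : Fin (2 * g + 1) => Icc (-(X : ℤ)) X)).filter Function.Injective

/-- The tuple `(q a_0, ..., q a_{2 g})`. The curve `y² = ∏ (x - q a_i)` is the quadratic twist
`q y² = ∏ (x - a_i)` of the curve `y² = ∏ (x - a_i)`: multiply `x` by `q` and `y` by `q ^ (g + 1)`. -/
def twist {g : ℕ} (q : ℕ) (a : Fin (2 * g + 1) → ℤ) : Fin (2 * g + 1) → ℤ := fun i => (q : ℤ) * a i

open Classical in
/-- the primes `q ≤ Q` such that the Jacobian `J_q` of `y² = ∏ (x - q a_i)` satisfies
`H¹_f(ℚ, V_2 J_q) = 0`, and `#(J_q(ℚ) / 2 ^ m J_q(ℚ)) = 2 ^ (2 g)` for all `m ≥ 1` -/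
noncomputable def Good {g : ℕ} (Q : ℕ) (a : Fin (2 * g + 1) → ℤ) : Finset ℕ :=
  (Icc 1 Q).filter (fun q => q.Prime ∧ (∀ x : H1f (twist q a) 2, x = 0) ∧ ∀ m : ℕ, 1 ≤ m →
    Nat.card (QuotQ (twist q a) (2 ^ m)) = 2 ^ (2 * g))

lemma Fam_eq (g X : ℕ) : Fam g X = Pool.Agent.Y723.JG.Fm (2 * g + 1) X := by
  classical
  unfold Fam Pool.Agent.Y723.JG.Fm Pool.Agent.TH344.JG.BoxJ
  exact filter_congr fun a _ => Iff.rfl

lemma Good_eq {g : ℕ} (Q : ℕ) (a : Fin (2 * g + 1) → ℤ) : Good Q a = Q274.BJ.TQ Q a := by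
  classical
  unfold Good Q274.BJ.TQ
  exact filter_congr fun q _ => Iff.rfl

open Classical in
/-- **Theorem.** For every `g ≥ 1` there is a constant `C` such that for every `ε > 0` there are
`c > 0` and `X₀` such that for all `X ≥ X₀` and all `Q ≥ (log X) ^ C` the following holds for all but
at most `ε * #(Fam g X)` of the tuples `a` of `Fam g X`: there are at least `c * Q / log Q` primes
`q ≤ Q` (a positive proportion of all the primes up to `Q`) such that the Jacobian `J_q` of
`y² = ∏ (x - q a_i)`, the quadratic twist by `q` of the Jacobian of `y² = ∏ (x - a_i)`, satisfies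
`H¹_f(ℚ, V_2 J_q) = 0`, and `#(J_q(ℚ) / 2 ^ m J_q(ℚ)) = 2 ^ (2 g)` for all `m ≥ 1`. -/
theorem result : ∀ g : ℕ, 1 ≤ g → ∃ C : ℕ, ∀ ε : ℝ, 0 < ε → ∃ c : ℝ, 0 < c ∧ ∃ X₀ : ℕ,
    ∀ X : ℕ, X₀ ≤ X → ∀ Q : ℕ, (Real.log X) ^ C ≤ Q →
      (((Fam g X).filter (fun a => ¬ c * Q / Real.log Q ≤ ((Good Q a).card : ℝ))).card : ℝ) ≤
        ε * ((Fam g X).card : ℝ) := by
  intro g hg
  refine ⟨Pool.Agent.Y723.PT.CE (2 * g + 1), fun ε hε => ?_⟩
  simp only [Fam_eq, Good_eq]
  exact Q274.BJ.mainB
    (Pool.Agent.Y46.KEY.key_of Pool.Agent.Y660.TS.rnk Pool.Agent.Y676.Tsm.tsm) hg ε hε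

end Pool.Agent.Results.MP_009fd8_ag.HyperellipticJacobians
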